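import Pool.Agent.ASO.StmtsL

/-!
# Squad ASO, row LC1: the absolutely irreducible case
-/

open scoped BigOperators

namespace Pool.Agent.PP.SO.H45

theorem lc1 (lav : LAvStmt) : LC1Stmt := by
  intro ℓ _ V Γ _ _ _ _ _ ρ F f₀ h hF hH hI hA
  have hav := lav ℓ V Γ ρ hF.od hF.rk hA
  have key : ∀ (lam mu : V →ₗ[ZMod ℓ] ZMod ℓ) (c d : V),
      (2 : ZMod ℓ) * ∑ e : Γ, lam (ρ e⁻¹ c) * mu (ρ e d) = (Fintype.card Γ : ZMod ℓ) * lam d * mu c := by
    intro lam mu c d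
    have h1 := congrArg mu (hav lam c d)
    rw [map_smul, map_smul, map_sum, smul_eq_mul, smul_eq_mul] at h1
    rw [← h1]
    congr 1
    apply Finset.sum_congr rfl
    intro e _
    rw [map_smul, smul_eq_mul]
  have : Nontrivial V := Module.nontrivial_of_finrank_pos (R := ZMod ℓ) (by rw [hF.rk]; norm_num)
  obtain ⟨c, hc⟩ := exists_ne (0 : V)
  obtain ⟨φ, hφ⟩ : ∃ φ : V →ₗ[ZMod ℓ] ZMod ℓ, φ c ≠ 0 := by
    by_contra hcon
    push Not at hcon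
    exact hc ((Module.forall_dual_apply_eq_zero_iff (ZMod ℓ) c).1 hcon)
  have h1 := hI c c hc hc φ φ
  have hcc : h c c = F c - f₀ := (hH c hc).1
  have k1 := key φ φ c c
  have k2 := key φ (h c) c c
  have k3 := key (h c) φ c c
  rw [hcc] at k2 k3
  have e1 : (2 : ZMod ℓ) * ∑ e : Γ, ((f₀ - F c - F c) * φ (ρ e c) * φ (ρ e⁻¹ c)
      + h c (ρ e c) * φ c * φ (ρ e⁻¹ c) + h c (ρ e⁻¹ c) * φ (ρ e c) * φ c)
      = (f₀ - F c - F c) * (2 * ∑ e : Γ, φ (ρ e⁻¹ c) * φ (ρ e c))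
        + φ c * (2 * ∑ e : Γ, φ (ρ e⁻¹ c) * h c (ρ e c))
        + φ c * (2 * ∑ e : Γ, h c (ρ e⁻¹ c) * φ (ρ e c)) := by
    rw [Finset.mul_sum, Finset.mul_sum, Finset.mul_sum, Finset.mul_sum, Finset.mul_sum,
      Finset.mul_sum, Finset.mul_sum, ← Finset.sum_add_distrib, ← Finset.sum_add_distrib]
    apply Finset.sum_congr rfl
    intro e _
    ring
  rw [h1, k1, k2, k3, mul_zero] at e1
  have e2 : (Fintype.card Γ : ZMod ℓ) * φ c ^ 2 * f₀ = 0 := by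
    linear_combination e1
  rcases mul_eq_zero.1 e2 with e3 | e3
  · rcases mul_eq_zero.1 e3 with e4 | e4
    · exact absurd e4 hF.cp
    · exact absurd (pow_eq_zero_iff two_ne_zero |>.1 e4) hφ
  · exact e3

end Pool.Agent.PP.SO.H45
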